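import Mathlib
import Pool.Agent.H17.IIC.Resample

/-! Russo's formula for functions of finitely many coordinates. -/

open MeasureTheory Set Filter Topology
open scoped ENNReal

set_option linter.unusedSectionVars false

namespace Pool.Agent.H91.IIC

open Pool.Agent.H17.IIC

variable {ι : Type*} [DecidableEq ι]

/-- `F` depends only on the coordinates in `Λ`. -/
def DepOn (Λ : Finset ι) (F : (ι → Bool) → ℝ) : Prop :=
  ∀ ω ω' : ι → Bool, (∀ e ∈ Λ, ω e = ω' e) → F ω = F ω'

/-- extension by `false` -/
def extendF (Λ : Finset ι) (σ : Λ → Bool) : ι → Bool := fun e => if h : e ∈ Λ then σ ⟨e, h⟩ else false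

lemma DepOn.eq_comp {Λ : Finset ι} {F : (ι → Bool) → ℝ} (h : DepOn Λ F) :
    F = (fun σ : Λ → Bool => F (extendF Λ σ)) ∘ (fun ω (e : Λ) => ω e) := by
  funext ω
  apply h
  intro e he
  simp [extendF, he]

lemma DepOn.measurable {Λ : Finset ι} {F : (ι → Bool) → ℝ} (h : DepOn Λ F) : Measurable F := by
  rw [h.eq_comp]
  have h1 : Measurable (fun σ : Λ → Bool => F (extendF Λ σ)) := measurable_of_finite _
  have h2 : Measurable (fun (ω : ι → Bool) (e : Λ) => ω e) :=
    measurable_pi_lambda _ (fun e => measurable_pi_apply _)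
  exact h1.comp h2

lemma DepOn.bounded {Λ : Finset ι} {F : (ι → Bool) → ℝ} (h : DepOn Λ F) :
    ∃ C : ℝ, ∀ ω, ‖F ω‖ ≤ C := by
  obtain ⟨C, hC⟩ := (Set.finite_range (fun σ : Λ → Bool => ‖F (extendF Λ σ)‖)).bddAbove
  refine ⟨C, fun ω => ?_⟩
  rw [h.eq_comp]
  exact hC ⟨_, rfl⟩

lemma DepOn.integrable {Λ : Finset ι} {F : (ι → Bool) → ℝ} (h : DepOn Λ F) (p : unitInterval) :
    Integrable F (prodBern ι p) := by
  obtain ⟨C, hC⟩ := h.bounded
  exact Integrable.of_bound h.measurable.aestronglyMeasurable C (Eventually.of_forall hC)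

lemma DepOn.mono {Λ Λ' : Finset ι} {F : (ι → Bool) → ℝ} (h : DepOn Λ F) (hs : Λ ⊆ Λ') :
    DepOn Λ' F := fun ω ω' hω => h ω ω' (fun e he => hω e (hs he))

lemma DepOn.update {Λ : Finset ι} {e : ι} {F : (ι → Bool) → ℝ} (h : DepOn (insert e Λ) F)
    (b : Bool) : DepOn Λ (fun ω => F (Function.update ω e b)) := by
  intro ω ω' hω
  apply h
  intro f hf
  by_cases hfe : f = e
  · subst hfe; simp
  · rw [Function.update_of_ne hfe, Function.update_of_ne hfe]
    exact hω f ((Finset.mem_insert.1 hf).resolve_left hfe)

lemma DepOn.update' {Λ : Finset ι} {F : (ι → Bool) → ℝ} (h : DepOn Λ F) (e : ι)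
    (b : Bool) : DepOn Λ (fun ω => F (Function.update ω e b)) :=
  (h.mono (Finset.subset_insert e Λ)).update b

lemma integral_bern (p : unitInterval) (f : Bool → ℝ) :
    ∫ b, f b ∂(bern p) = (p : ℝ) * f true + (1 - (p : ℝ)) * f false := by
  unfold bern
  rw [integral_add_measure, integral_smul_measure, integral_smul_measure, integral_dirac,
    integral_dirac, ENNReal.toReal_ofReal p.2.1, ENNReal.toReal_ofReal (by linarith [p.2.2])]
  · simp
  · exact (integrable_dirac (by simp)).smul_measure (by simp)
  · exact (integrable_dirac (by simp)).smul_measure (by simp)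

/-- resampling one coordinate, for bounded real functions -/
lemma integral_resample (p : unitInterval) (e : ι) {F : (ι → Bool) → ℝ} (hF : Measurable F)
    {C : ℝ} (hC : ∀ ω, ‖F ω‖ ≤ C) :
    ∫ ω, F ω ∂(prodBern ι p) = (p : ℝ) * ∫ ω, F (Function.update ω e true) ∂(prodBern ι p)
      + (1 - (p : ℝ)) * ∫ ω, F (Function.update ω e false) ∂(prodBern ι p) := by
  conv_lhs => rw [← map_update p e]
  rw [integral_map (measurable_update' e).aemeasurable hF.aestronglyMeasurable]
  have hint : Integrable (fun x : Bool × (ι → Bool) => F (Function.update x.2 e x.1))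
      ((bern p).prod (prodBern ι p)) :=
    Integrable.of_bound (hF.comp (measurable_update' e)).aestronglyMeasurable C
      (Eventually.of_forall (fun x => hC _))
  rw [integral_prod _ hint, integral_bern]

lemma DepOn.resample {Λ : Finset ι} {F : (ι → Bool) → ℝ} (h : DepOn Λ F) (p : unitInterval)
    (e : ι) :
    ∫ ω, F ω ∂(prodBern ι p) = (p : ℝ) * ∫ ω, F (Function.update ω e true) ∂(prodBern ι p)
      + (1 - (p : ℝ)) * ∫ ω, F (Function.update ω e false) ∂(prodBern ι p) := by
  obtain ⟨C, hC⟩ := h.bounded
  exact integral_resample p e h.measurable hC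

/-- the parameter as a point of the unit interval -/
noncomputable abbrev prm (x : ℝ) : unitInterval := Set.projIcc 0 1 zero_le_one x

lemma prm_coe {x : ℝ} (h0 : 0 ≤ x) (h1 : x ≤ 1) : ((prm x : unitInterval) : ℝ) = x := by
  unfold prm
  rw [Set.projIcc_of_mem zero_le_one ⟨h0, h1⟩]

/-- Russo's formula -/
theorem russo (Λ : Finset ι) : ∀ (F : (ι → Bool) → ℝ), DepOn Λ F → ∀ x : ℝ, 0 < x → x < 1 →
    HasDerivAt (fun y => ∫ ω, F ω ∂(prodBern ι (prm y)))
      (∑ e ∈ Λ, ∫ ω, (F (Function.update ω e true) - F (Function.update ω e false))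
        ∂(prodBern ι (prm x))) x := by
  induction Λ using Finset.induction_on with
  | empty =>
    intro F hF x h0 h1
    have : ∀ y, ∫ ω, F ω ∂(prodBern ι (prm y)) = F (fun _ => false) := by
      intro y
      have h : ∀ ω, F ω = F (fun _ => false) := fun ω => hF ω _ (fun e he => absurd he (by simp))
      simp only [h]
      simp
    simp only [this, Finset.sum_empty]
    exact hasDerivAt_const _ _
  | @insert e Λ he ih =>
    intro F hF x h0 h1
    set F1 : (ι → Bool) → ℝ := fun ω => F (Function.update ω e true) with hF1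
    set F0 : (ι → Bool) → ℝ := fun ω => F (Function.update ω e false) with hF0
    have hd1 : DepOn Λ F1 := hF.update true
    have hd0 : DepOn Λ F0 := hF.update false
    have hev : (fun y => ∫ ω, F ω ∂(prodBern ι (prm y))) =ᶠ[𝓝 x]
        fun y => y * ∫ ω, F1 ω ∂(prodBern ι (prm y)) + (1 - y) * ∫ ω, F0 ω ∂(prodBern ι (prm y)) := by
      filter_upwards [Ioo_mem_nhds h0 h1] with y hy
      rw [hF.resample (prm y) e, prm_coe hy.1.le hy.2.le]
    have hder := ((hasDerivAt_id x).mul (ih F1 hd1 x h0 h1)).add
      (((hasDerivAt_const x (1 : ℝ)).sub (hasDerivAt_id x)).mul (ih F0 hd0 x h0 h1))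
    refine (hder.congr_of_eventuallyEq ?_).congr_deriv ?_
    · filter_upwards [hev] with y hy
      simpa using hy
    · rw [Finset.sum_insert he]
      have hsub : ∫ ω, (F (Function.update ω e true) - F (Function.update ω e false))
            ∂(prodBern ι (prm x))
          = ∫ ω, F1 ω ∂(prodBern ι (prm x)) - ∫ ω, F0 ω ∂(prodBern ι (prm x)) :=
        integral_sub (hd1.integrable _) (hd0.integrable _)
      have hf : ∀ f ∈ Λ, ∫ ω, (F (Function.update ω f true) - F (Function.update ω f false))
            ∂(prodBern ι (prm x))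
          = x * ∫ ω, (F1 (Function.update ω f true) - F1 (Function.update ω f false))
              ∂(prodBern ι (prm x))
            + (1 - x) * ∫ ω, (F0 (Function.update ω f true) - F0 (Function.update ω f false))
              ∂(prodBern ι (prm x)) := by
        intro f hf
        have hfe : f ≠ e := fun h => he (h ▸ hf)
        have hdep : DepOn (insert e Λ)
            (fun ω => F (Function.update ω f true) - F (Function.update ω f false)) := by
          intro ω ω' hω
          have e1 := hF.update' f true ω ω' hω
          have e2 := hF.update' f false ω ω' hω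
          simp only at e1 e2 ⊢
          rw [e1, e2]
        rw [hdep.resample (prm x) e, prm_coe h0.le h1.le]
        congr 2
        · apply integral_congr_ae
          filter_upwards with ω
          simp only [hF1]
          rw [Function.update_comm hfe, Function.update_comm hfe]
        · apply integral_congr_ae
          filter_upwards with ω
          simp only [hF0]
          rw [Function.update_comm hfe, Function.update_comm hfe]
      rw [Finset.sum_congr rfl hf, Finset.sum_add_distrib, ← Finset.mul_sum, ← Finset.mul_sum, hsub]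
      simp only [id, Pi.sub_apply]
      ring

end Pool.Agent.H91.IIC
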