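import Mathlib
import Pool.Agent.H17.IIC.Main

/-! An incipient infinite cluster (a probability measure) can exist only when the open clusters
are almost surely finite. -/

open MeasureTheory Set Filter Topology
open scoped ENNReal Classical BoundedContinuousFunction

set_option linter.unusedSectionVars false

namespace Pool.Agent.H91.IIC

open Pool.Agent.H17.IIC

variable {Γ : Type*} [Group Γ] {G : SimpleGraph Γ} [Countable Γ] (p : unitInterval)

/-- an infinite cluster meets every sphere -/
lemma exists_dist_eq_of_infinite (hconn : G.Connected) (hfin : ∀ x, (G.neighborSet x).Finite)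
    {ω : Sym2 Γ → Bool} (hω : (cluster G ω 1).Infinite) (n : ℕ) :
    ∃ z ∈ cluster G ω 1, G.dist 1 z = n := by
  by_contra hc
  push Not at hc
  apply hω
  apply (ball_finite hconn hfin (1 : Γ) n).subset
  intro z hz
  have key : ∀ z ∈ cluster G ω 1, z ∈ cluster G ω 1 ∧ G.dist 1 z < n := by
    refine cluster_induction (P := fun z => z ∈ cluster G ω 1 ∧ G.dist 1 z < n) ?_ ?_
    · refine ⟨self_mem_cluster, ?_⟩
      have := hc 1 self_mem_cluster
      rw [SimpleGraph.dist_self] at this ⊢
      omega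
    · intro a _ ha b hab ho
      obtain ⟨ha1, ha2⟩ := ha
      have hb : b ∈ cluster G ω 1 := cluster_step ha1 hab ho
      refine ⟨hb, ?_⟩
      have h1 : G.dist 1 b ≤ G.dist 1 a + G.dist a b := hconn.dist_triangle
      have h2 : G.dist a b = 1 := SimpleGraph.dist_eq_one_iff_adj.2 hab
      have h3 := hc b hb
      omega
  exact (key z hz).2.le

lemma measurableSet_infinite :
    MeasurableSet {ω : Sym2 Γ → Bool | (cluster G ω 1).Infinite} := by
  have : {ω : Sym2 Γ → Bool | (cluster G ω 1).Infinite} = ⋂ k : ℕ, {ω | Big G k ω 1} := by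
    ext ω
    simp only [Set.mem_ofPred_eq, Set.mem_iInter]
    constructor
    · intro h k
      by_contra hc
      exact h (not_big_iff.1 hc).1
    · intro h
      exact infinite_of_big h
  rw [this]
  exact MeasurableSet.iInter (fun k => measurableSet_big k 1)

/-- the total weight given to the possible roots -/
lemma sum_dens_le (ω : Sym2 Γ → Bool) :
    ∑' ρ : Γ, (if ρ ∈ cluster G ω 1 then ((cluster G ω 1).encard : ℝ≥0∞)⁻¹ else 0)
      ≤ ({ω : Sym2 Γ → Bool | (cluster G ω 1).Infinite}ᶜ).indicator 1 ω := by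
  by_cases hf : (cluster G ω 1).Finite
  · have hmem : ω ∈ {ω : Sym2 Γ → Bool | (cluster G ω 1).Infinite}ᶜ := by
      simpa using hf
    rw [Set.indicator_of_mem hmem, Pi.one_apply]
    have h1 : ∑' ρ : Γ, (if ρ ∈ cluster G ω 1 then ((cluster G ω 1).encard : ℝ≥0∞)⁻¹ else 0)
        = ∑ ρ ∈ hf.toFinset, ((cluster G ω 1).encard : ℝ≥0∞)⁻¹ := by
      rw [tsum_eq_sum (s := hf.toFinset)]
      · apply Finset.sum_congr rfl
        intro ρ hρ
        rw [if_pos (by simpa using hρ)]
      · intro ρ hρ
        rw [if_neg (by simpa using hρ)]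
    rw [h1, Finset.sum_const, nsmul_eq_mul]
    have h2 : ((cluster G ω 1).encard : ℝ≥0∞) = (hf.toFinset.card : ℝ≥0∞) := by
      rw [hf.encard_eq_coe_toFinset_card]
      simp
    rw [h2]
    exact ENNReal.mul_inv_le_one _
  · have h1 : ((cluster G ω 1).encard : ℝ≥0∞) = ⊤ := by
      rw [Set.encard_eq_top hf]; simp
    simp [h1]

lemma law_univ_add_le (hconn : G.Connected) (hfin : ∀ x, (G.neighborSet x).Finite) (n : ℕ) :
    rerootedLaw G p n Set.univ + perc Γ p {ω | (cluster G ω 1).Infinite} ≤ 1 := by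
  set A : Set (Sym2 Γ → Bool) := {ω | ∃ z ∈ cluster G ω 1, G.dist 1 z = n} with hA
  set I : Set (Sym2 Γ → Bool) := {ω | (cluster G ω 1).Infinite} with hI
  have hAm : MeasurableSet A := measurableSet_reach n
  have hIm : MeasurableSet I := measurableSet_infinite
  have hIA : I ⊆ A := fun ω hω => exists_dist_eq_of_infinite hconn hfin hω n
  have h1 : rerootedLaw G p n Set.univ
      ≤ (perc Γ p A)⁻¹ * perc Γ p (A ∩ Iᶜ) := by
    unfold rerootedLaw
    rw [Measure.sum_apply _ MeasurableSet.univ]
    have h2 : ∀ ρ : Γ, ((ProbabilityTheory.cond (perc Γ p) A).withDensity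
        (fun ω => if ρ ∈ cluster G ω 1 then ((cluster G ω 1).encard : ℝ≥0∞)⁻¹ else 0)).map
          (reroot G ρ) Set.univ
        = ∫⁻ ω, (if ρ ∈ cluster G ω 1 then ((cluster G ω 1).encard : ℝ≥0∞)⁻¹ else 0)
            ∂(ProbabilityTheory.cond (perc Γ p) A) := by
      intro ρ
      rw [Measure.map_apply (measurable_reroot ρ) MeasurableSet.univ, Set.preimage_univ,
        withDensity_apply _ MeasurableSet.univ, Measure.restrict_univ]
    rw [tsum_congr h2]
    rw [← lintegral_tsum (fun ρ => (measurable_dens ρ).aemeasurable)]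
    calc ∫⁻ ω, ∑' ρ : Γ, (if ρ ∈ cluster G ω 1 then ((cluster G ω 1).encard : ℝ≥0∞)⁻¹ else 0)
            ∂(ProbabilityTheory.cond (perc Γ p) A)
        ≤ ∫⁻ ω, (Iᶜ).indicator 1 ω ∂(ProbabilityTheory.cond (perc Γ p) A) :=
          lintegral_mono (fun ω => sum_dens_le ω)
      _ = ProbabilityTheory.cond (perc Γ p) A Iᶜ := lintegral_indicator_one hIm.compl
      _ = (perc Γ p A)⁻¹ * perc Γ p (A ∩ Iᶜ) := ProbabilityTheory.cond_apply hAm _ _
  have h3 : perc Γ p (A ∩ Iᶜ) + perc Γ p I = perc Γ p A := by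
    have := measure_inter_add_sdiff (μ := perc Γ p) A hIm
    rw [Set.inter_eq_self_of_subset_right hIA] at this
    rw [add_comm]
    exact this
  have h4 : (1 : ℝ≥0∞) ≤ (perc Γ p A)⁻¹ := by
    rw [ENNReal.one_le_inv]
    exact prob_le_one
  calc rerootedLaw G p n Set.univ + perc Γ p I
      ≤ (perc Γ p A)⁻¹ * perc Γ p (A ∩ Iᶜ) + (perc Γ p A)⁻¹ * perc Γ p I := by
        gcongr
        exact le_mul_of_one_le_left zero_le h4
    _ = (perc Γ p A)⁻¹ * perc Γ p A := by rw [← mul_add, h3]
    _ ≤ 1 := ENNReal.inv_mul_le_one _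

/-- If an incipient infinite cluster exists as a probability measure, then there is no infinite
open cluster: the rerooted law gives weight `0` to infinite clusters. -/
theorem thetaZero_of_isIIC (hconn : G.Connected) (hfin : ∀ x, (G.neighborSet x).Finite)
    {Q : Measure (H17.IIC.Sub Γ)} (hQ : IsIIC G p Q) :
    perc Γ p {ω | (cluster G ω 1).Infinite} = 0 := by
  obtain ⟨hprob, n, -, hlim⟩ := hQ
  have h1 := hlim 1
  simp only [BoundedContinuousFunction.coe_one, Pi.one_apply, integral_const, smul_eq_mul,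
    mul_one, probReal_univ] at h1
  set θ := perc Γ p {ω | (cluster G ω 1).Infinite} with hθ
  have hb : ∀ j, (rerootedLaw G p (n j)).real Set.univ ≤ 1 - θ.toReal := by
    intro j
    have h := law_univ_add_le p hconn hfin (n j)
    have hθt : θ ≠ ⊤ := measure_ne_top _ _
    have hrt : rerootedLaw G p (n j) Set.univ ≠ ⊤ := by
      intro h'
      rw [h'] at h
      simp at h
    have h2 := ENNReal.toReal_mono ENNReal.one_ne_top h
    rw [ENNReal.toReal_add hrt hθt, ENNReal.toReal_one] at h2
    rw [Measure.real]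
    linarith
  have h3 : (1 : ℝ) ≤ 1 - θ.toReal := le_of_tendsto' h1 hb
  have h4 : θ.toReal = 0 := le_antisymm (by linarith) ENNReal.toReal_nonneg
  rcases (ENNReal.toReal_eq_zero_iff θ).1 h4 with h | h
  · exact h
  · exact absurd h (measure_ne_top _ _)

end Pool.Agent.H91.IIC
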