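import Mathlib
import Pool.Agent.H17.IIC.Phi
import Pool.Agent.H91.IIC.Russo
import Pool.Agent.H91.IIC.Theta

/-! (DCT), part (b): `θ_n' ≥ 4 (1 - θ_n)` above the critical point (Duminil-Copin and Tassion). -/

open MeasureTheory Set Filter Topology
open scoped ENNReal Classical

set_option linter.unusedSectionVars false

namespace Pool.Agent.H91.IIC

open Pool.Agent.H17.IIC

section conf
variable {V : Type*} {G : SimpleGraph V} {ω ω' : Sym2 V → Bool} {o : V} {n : ℕ}

/-- vertices of the open ball of radius `n` which are not connected to the sphere of radius `n` -/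
def sep (G : SimpleGraph V) (o : V) (n : ℕ) (ω : Sym2 V → Bool) : Set V :=
  {v | G.dist o v < n ∧ ∀ z ∈ cluster G ω v, G.dist o z ≠ n}

lemma sep_cluster (hconn : G.Connected) {v w : V} (hv : v ∈ sep G o n ω)
    (hw : w ∈ cluster G ω v) : w ∈ sep G o n ω := by
  have hlt : G.dist o w < n := by
    refine cluster_induction (P := fun w => G.dist o w < n) hv.1 ?_ w hw
    intro a ha hlt b hab ho
    have hb := hv.2 b (cluster_step ha hab ho)
    have h1 : G.dist o b ≤ G.dist o a + G.dist a b := hconn.dist_triangle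
    have h2 : G.dist a b = 1 := SimpleGraph.dist_eq_one_iff_adj.2 hab
    omega
  refine ⟨hlt, ?_⟩
  rw [cluster_eq_of_mem hw]
  exact hv.2

lemma mem_sep_self (hn : n ≠ 0) : o ∈ sep G o n ω ↔ ¬ Reach G n ω o := by
  unfold sep Reach
  simp only [Set.mem_ofPred_eq, SimpleGraph.dist_self]
  constructor
  · rintro ⟨_, h⟩ ⟨z, hz, hzn⟩
    exact h z hz hzn
  · intro h
    refine ⟨Nat.pos_of_ne_zero hn, fun z hz hzn => h ⟨z, hz, hzn⟩⟩

lemma sep_update (hconn : G.Connected) {e : Sym2 V} (he : ∀ v ∈ e, v ∈ sep G o n ω) (b : Bool) :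
    sep G o n (Function.update ω e b) = sep G o n ω := by
  set S := sep G o n ω with hS
  ext v
  constructor
  · intro hv
    by_contra hvS
    have hlt := hv.1
    have : ∃ z ∈ cluster G ω v, G.dist o z = n := by
      by_contra hc
      push Not at hc
      exact hvS ⟨hlt, hc⟩
    obtain ⟨z, hz, hzn⟩ := this
    refine hv.2 z ?_ hzn
    have hdis : ∀ a ∈ cluster G ω v, a ∉ S := by
      intro a ha haS
      apply hvS
      exact sep_cluster hconn haS (mem_cluster_comm.1 ha)
    refine cluster_subset_of_edges ?_ hz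
    intro a ha c hac ho
    rw [Function.update_of_ne]
    · exact ho
    · intro h
      exact hdis a ha (he a (by rw [← h]; exact Sym2.mem_mk_left a c))
  · intro hv
    have hsub : ∀ w ∈ cluster G (Function.update ω e b) v, w ∈ S := by
      refine cluster_induction (P := fun w => w ∈ S) hv ?_
      intro a _ ha c hac ho
      by_cases h : s(a, c) = e
      · exact he c (by rw [← h]; exact Sym2.mem_mk_right a c)
      · rw [Function.update_of_ne h] at ho
        exact sep_cluster hconn ha (cluster_step self_mem_cluster hac ho)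
    refine ⟨hv.1, fun z hz => ?_⟩
    have := (hsub z hz).1
    omega

lemma cluster_inn_sep (hconn : G.Connected) (ho : o ∈ sep G o n ω) :
    cluster G (inn (sep G o n ω) ω) o = cluster G ω o := by
  apply Set.Subset.antisymm
  · exact cluster_mono inn_le
  · apply cluster_subset_of_edges
    intro a ha b hab hob
    exact inn_mk.2 ⟨⟨sep_cluster hconn ho ha, sep_cluster hconn ho (cluster_step ha hab hob)⟩, hob⟩

lemma sep_pivotal (hconn : G.Connected) (hn : n ≠ 0) {x y : V} (ho : o ∈ sep G o n ω)
    (hx : x ∈ cluster G ω o) (hy : y ∉ sep G o n ω) (hxy : G.Adj x y) :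
    ω s(x, y) = false ∧ Reach G n (on ω s(x, y)) o ∧ ¬ Reach G n (off ω s(x, y)) o := by
  have hxS : x ∈ sep G o n ω := sep_cluster hconn ho hx
  have hcl : ω s(x, y) = false := by
    by_contra h
    rw [Bool.not_eq_false] at h
    exact hy (sep_cluster hconn ho (cluster_step hx hxy h))
  have hoff : off ω s(x, y) = ω := by
    unfold off; rw [← hcl]; exact Function.update_eq_self _ _
  refine ⟨hcl, ?_, ?_⟩
  · have hx' : x ∈ cluster G (on ω s(x, y)) o := cluster_mono (le_on _) hx
    have hy' : y ∈ cluster G (on ω s(x, y)) o := cluster_step hx' hxy (on_self _)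
    by_cases hlt : G.dist o y < n
    · have : ∃ z ∈ cluster G ω y, G.dist o z = n := by
        by_contra hc
        push Not at hc
        exact hy ⟨hlt, hc⟩
      obtain ⟨z, hz, hzn⟩ := this
      refine ⟨z, ?_, hzn⟩
      rw [← cluster_eq_of_mem hy']
      exact cluster_mono (le_on _) hz
    · refine ⟨y, hy', ?_⟩
      have h1 : G.dist o y ≤ G.dist o x + G.dist x y := hconn.dist_triangle
      have h2 : G.dist x y = 1 := SimpleGraph.dist_eq_one_iff_adj.2 hxy
      have h3 := hxS.1
      omega
  · rw [hoff]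
    exact (mem_sep_self hn).1 ho

lemma reach_congr (hconn : G.Connected) (hn : n ≠ 0)
    (h : ∀ e ∈ touch G {v | G.dist o v < n}, ω e = ω' e) (hr : Reach G n ω o) :
    Reach G n ω' o := by
  by_contra hc
  have hsep : o ∈ sep G o n ω' := (mem_sep_self hn).2 hc
  have hsub : cluster G ω' o ⊆ {v | G.dist o v < n} := fun v hv => (sep_cluster hconn hsep hv).1
  have heq : cluster G ω o = cluster G ω' o := by
    apply cluster_congr
    rintro e ⟨a, ha, b, hab, rfl⟩
    exact (h _ ⟨a, hsub ha, b, hab, rfl⟩).symm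
  apply hc
  unfold Reach at hr ⊢
  rw [← heq]
  exact hr

lemma reach_mono (h : ∀ e, ω e = true → ω' e = true) (hr : Reach G n ω o) : Reach G n ω' o := by
  obtain ⟨z, hz, hzn⟩ := hr
  exact ⟨z, cluster_mono h hz, hzn⟩

end conf

section meas
variable {V : Type*} [Countable V] {G : SimpleGraph V} {o : V} {n : ℕ}

lemma measurableSet_reach' (n : ℕ) (o : V) : MeasurableSet {ω : Sym2 V → Bool | Reach G n ω o} := by
  unfold Reach
  simp only [Set.ofPred_exists]
  refine MeasurableSet.iUnion fun z => ?_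
  exact (measurableSet_mem_cluster o z).inter (MeasurableSet.const _)

lemma measurableSet_sep_mem (n : ℕ) (o v : V) :
    MeasurableSet {ω : Sym2 V → Bool | v ∈ sep G o n ω} := by
  have : {ω : Sym2 V → Bool | v ∈ sep G o n ω}
      = {_ω : Sym2 V → Bool | G.dist o v < n} ∩ ⋂ z : V, ({ω : Sym2 V → Bool | z ∈ cluster G ω v}ᶜ
        ∪ {_ω : Sym2 V → Bool | G.dist o z ≠ n}) := by
    ext ω
    simp only [sep, Set.mem_ofPred_eq, Set.mem_inter_iff, Set.mem_iInter, Set.mem_union,
      Set.mem_compl_iff]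
    constructor
    · rintro ⟨h1, h2⟩
      refine ⟨h1, fun z => ?_⟩
      by_cases hz : z ∈ cluster G ω v
      · exact Or.inr (h2 z hz)
      · exact Or.inl hz
    · rintro ⟨h1, h2⟩
      refine ⟨h1, fun z hz => ?_⟩
      rcases h2 z with h | h
      · exact absurd hz h
      · exact h
  rw [this]
  refine (MeasurableSet.const _).inter (MeasurableSet.iInter fun z => ?_)
  exact (measurableSet_mem_cluster v z).compl.union (MeasurableSet.const _)

lemma measurableSet_sep_eq (n : ℕ) (o : V) (K : Set V) :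
    MeasurableSet {ω : Sym2 V → Bool | sep G o n ω = K} := by
  have : {ω : Sym2 V → Bool | sep G o n ω = K}
      = ⋂ v : V, (if v ∈ K then {ω : Sym2 V → Bool | v ∈ sep G o n ω}
          else {ω : Sym2 V → Bool | v ∈ sep G o n ω}ᶜ) := by
    ext ω
    simp only [Set.mem_ofPred_eq, Set.mem_iInter]
    constructor
    · rintro rfl v
      by_cases hv : v ∈ sep G o n ω
      · rw [if_pos hv]; exact hv
      · rw [if_neg hv]; exact hv
    · intro h
      ext v
      have := h v
      by_cases hv : v ∈ K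
      · rw [if_pos hv] at this
        exact ⟨fun _ => hv, fun _ => this⟩
      · rw [if_neg hv] at this
        exact ⟨fun h' => absurd h' this, fun h' => absurd h' hv⟩
  rw [this]
  refine MeasurableSet.iInter fun v => ?_
  split_ifs
  · exact measurableSet_sep_mem n o v
  · exact (measurableSet_sep_mem n o v).compl

/-- the edge `e` is closed and pivotal -/
def cpiv (G : SimpleGraph V) (o : V) (n : ℕ) (e : Sym2 V) : Set (Sym2 V → Bool) :=
  {ω | ω e = false ∧ Reach G n (on ω e) o ∧ ¬ Reach G n (off ω e) o}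

lemma measurableSet_pivotal (n : ℕ) (o : V) (e : Sym2 V) :
    MeasurableSet {ω : Sym2 V → Bool | Reach G n (on ω e) o ∧ ¬ Reach G n (off ω e) o} :=
  ((measurable_on e) (measurableSet_reach' n o)).inter
    ((measurable_off e) (measurableSet_reach' n o)).compl

lemma measurableSet_cpiv (n : ℕ) (o : V) (e : Sym2 V) : MeasurableSet (cpiv G o n e) :=
  (measurableSet_eq_fun (measurable_pi_apply _) measurable_const).inter
    (measurableSet_pivotal n o e)

lemma tsum_ite_encard {α : Type*} (P : α → Prop) [DecidablePred P] :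
    ∑' b, (if P b then (1 : ℝ≥0∞) else 0) = (({b | P b} : Set α).encard : ℝ≥0∞) := by
  rw [← ENNReal.tsum_set_one, tsum_subtype ({b | P b} : Set α) (fun _ => (1 : ℝ≥0∞))]
  apply tsum_congr
  intro b
  by_cases h : P b
  · rw [if_pos h, Set.indicator_of_mem (by exact h)]
  · rw [if_neg h, Set.indicator_of_notMem (by exact h)]

lemma count_le (hconn : G.Connected) (hn : n ≠ 0) (Λ : Finset (Sym2 V))
    (hΛ : touch G {v | G.dist o v < n} ⊆ Λ) (ω : Sym2 V → Bool) :
    ∑' b : V × V, (if (o ∈ sep G o n ω ∧ b.1 ∈ sep G o n ω ∧ b.2 ∉ sep G o n ω ∧ G.Adj b.1 b.2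
        ∧ b.1 ∈ cluster G ω o) then (1 : ℝ≥0∞) else 0)
      ≤ ∑ e ∈ Λ, (cpiv G o n e).indicator 1 ω := by
  rw [tsum_ite_encard]
  set B : Set (V × V) := {b | o ∈ sep G o n ω ∧ b.1 ∈ sep G o n ω ∧ b.2 ∉ sep G o n ω
    ∧ G.Adj b.1 b.2 ∧ b.1 ∈ cluster G ω o} with hB
  have hinj : Set.InjOn (fun b : V × V => s(b.1, b.2)) B := by
    rintro ⟨a, b⟩ h1 ⟨c, d⟩ h2 heq
    simp only [Sym2.eq_iff] at heq
    rcases heq with ⟨h, h'⟩ | ⟨h, h'⟩
    · rw [h, h']
    · exfalso
      subst h
      exact h2.2.2.1 h1.2.1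
  have hsub : (fun b : V × V => s(b.1, b.2)) '' B ⊆ ((Λ.filter (fun e => ω ∈ cpiv G o n e) :
      Finset (Sym2 V)) : Set (Sym2 V)) := by
    rintro e ⟨b, hb, rfl⟩
    rw [Finset.coe_filter]
    refine ⟨hΛ ⟨b.1, hb.2.1.1, b.2, hb.2.2.2.1, rfl⟩, ?_⟩
    exact sep_pivotal hconn hn hb.1 hb.2.2.2.2 hb.2.2.1 hb.2.2.2.1
  have h1 : B.encard ≤ ((Λ.filter (fun e => ω ∈ cpiv G o n e)).card : ℕ∞) := by
    rw [← hinj.encard_image, ← Set.encard_coe_eq_coe_finsetCard]
    exact Set.encard_le_encard hsub
  have h2 : (B.encard : ℝ≥0∞) ≤ ((Λ.filter (fun e => ω ∈ cpiv G o n e)).card : ℝ≥0∞) := by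
    have := ENat.toENNReal_le.2 h1
    simpa using this
  refine h2.trans (le_of_eq ?_)
  rw [Finset.card_filter]
  push_cast
  apply Finset.sum_congr rfl
  intro e _
  by_cases h : ω ∈ cpiv G o n e <;> simp [h]

end meas

section prob
variable {V : Type*} [Countable V] {G : SimpleGraph V} {o : V} {n : ℕ} (p : unitInterval)

lemma sep_indep (hconn : G.Connected) (K : Finset V) (x : V) :
    perc V p ({ω : Sym2 V → Bool | x ∈ cluster G (inn (K : Set V) ω) o}
        ∩ {ω : Sym2 V → Bool | sep G o n ω = K})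
      = perc V p {ω : Sym2 V → Bool | x ∈ cluster G (inn (K : Set V) ω) o}
        * perc V p {ω : Sym2 V → Bool | sep G o n ω = K} := by
  refine indep_set p K.sym2 ((measurable_inn (K : Set V)) (measurableSet_mem_cluster o x))
    (measurableSet_sep_eq n o K) ?_ ?_
  · intro ω ω' h
    have : inn (K : Set V) ω = inn (K : Set V) ω' := by
      funext e
      unfold inn
      split_ifs with he
      · exact h e (Finset.mem_sym2_iff.2 (fun a ha => by exact_mod_cast he a ha))
      · rfl
    simp only [Set.mem_ofPred_eq, this]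
  · have main : ∀ e ∈ K.sym2, ∀ (ω : Sym2 V → Bool) (b : Bool), sep G o n ω = K →
        sep G o n (Function.update ω e b) = K := by
      intro e he ω b hω
      rw [sep_update hconn, hω]
      intro v hv
      rw [hω]
      exact_mod_cast Finset.mem_sym2_iff.1 he v hv
    intro e he ω b
    constructor
    · intro h
      have h' : sep G o n (Function.update ω e b) = K := h
      have := main e he _ (ω e) h'
      rw [Function.update_idem, Function.update_eq_self] at this
      exact this
    · intro h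
      exact main e he ω b h

/-- the key inequality -/
theorem key_b (hconn : G.Connected) (hfin : ∀ x, (G.neighborSet x).Finite) (hn : n ≠ 0)
    (hφ : ∀ S : Set V, S.Finite → o ∈ S → 1 ≤ phi G p o S) (Λ : Finset (Sym2 V))
    (hΛ : touch G {v | G.dist o v < n} ⊆ Λ) :
    perc V p {ω | ¬ Reach G n ω o}
      ≤ ENNReal.ofReal (p : ℝ) * ∑ e ∈ Λ, perc V p (cpiv G o n e) := by
  set μ := perc V p with hμ
  set A : Finset V → Set (Sym2 V → Bool) := fun K =>
    if o ∈ K then {ω | sep G o n ω = K} else ∅ with hA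
  set T : Finset V → V × V → Set (Sym2 V → Bool) := fun K b =>
    if o ∈ K ∧ b.1 ∈ (K : Set V) ∧ b.2 ∉ (K : Set V) ∧ G.Adj b.1 b.2 then
      {ω | b.1 ∈ cluster G (inn (K : Set V) ω) o} ∩ {ω | sep G o n ω = K} else ∅ with hT
  have hballf : {v | G.dist o v < n}.Finite :=
    (ball_finite hconn hfin o n).subset (fun v hv => le_of_lt (show G.dist o v < n from hv))
  have hsepf : ∀ ω, (sep G o n ω).Finite := fun ω => hballf.subset (fun v hv => hv.1)
  -- step 1
  have h1 : μ {ω | ¬ Reach G n ω o} ≤ ∑' K, μ (A K) := by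
    refine le_trans (measure_mono ?_) (measure_iUnion_le _)
    intro ω hω
    have ho : o ∈ sep G o n ω := (mem_sep_self hn).2 hω
    simp only [Set.mem_iUnion]
    refine ⟨(hsepf ω).toFinset, ?_⟩
    simp only [hA]
    rw [if_pos (by simpa using ho)]
    simp
  -- step 2
  have h2 : ∀ K, μ (A K) ≤ ENNReal.ofReal (p : ℝ) * ∑' b, μ (T K b) := by
    intro K
    by_cases ho : o ∈ K
    · have hphi := hφ (K : Set V) K.finite_toSet (by exact_mod_cast ho)
      calc μ (A K) = μ (A K) * 1 := by rw [mul_one]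
        _ ≤ μ (A K) * phi G p o (K : Set V) := by gcongr
        _ = ENNReal.ofReal (p : ℝ) * ∑' b, μ (T K b) := by
            unfold phi
            rw [mul_left_comm, ← ENNReal.tsum_mul_left]
            congr 1
            apply tsum_congr
            intro b
            simp only [hT, hA, ho, if_true, true_and]
            by_cases hb : b.1 ∈ (K : Set V) ∧ b.2 ∉ (K : Set V) ∧ G.Adj b.1 b.2
            · rw [if_pos hb, if_pos hb, hμ, sep_indep p hconn K b.1, mul_comm]
            · rw [if_neg hb, if_neg hb, measure_empty, mul_zero]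
    · simp only [hA, ho, if_false, measure_empty]
      exact bot_le
  -- step 3
  have hTm : ∀ K b, MeasurableSet (T K b) := by
    intro K b
    simp only [hT]
    split_ifs
    · exact ((measurable_inn (K : Set V)) (measurableSet_mem_cluster o b.1)).inter
        (measurableSet_sep_eq n o K)
    · exact MeasurableSet.empty
  have h3 : ∑' K, ∑' b, μ (T K b) ≤ ∑ e ∈ Λ, μ (cpiv G o n e) := by
    have e1 : ∑' K, ∑' b, μ (T K b) = ∫⁻ ω, ∑' b, ∑' K, (T K b).indicator 1 ω ∂μ := by
      rw [ENNReal.tsum_comm, lintegral_tsum]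
      · apply tsum_congr
        intro b
        rw [lintegral_tsum]
        · apply tsum_congr
          intro K
          rw [lintegral_indicator_one (hTm K b)]
        · intro K
          exact (measurable_one.indicator (hTm K b)).aemeasurable
      · intro b
        exact (Measurable.tsum (fun K => measurable_one.indicator (hTm K b))).aemeasurable
    have e2 : ∑ e ∈ Λ, μ (cpiv G o n e) = ∫⁻ ω, ∑ e ∈ Λ, (cpiv G o n e).indicator 1 ω ∂μ := by
      rw [lintegral_finsetSum]
      · apply Finset.sum_congr rfl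
        intro e _
        rw [lintegral_indicator_one (measurableSet_cpiv n o e)]
      · intro e _
        exact measurable_one.indicator (measurableSet_cpiv n o e)
    rw [e1, e2]
    apply lintegral_mono
    intro ω
    refine le_trans ?_ (count_le hconn hn Λ hΛ ω)
    apply ENNReal.tsum_le_tsum
    intro b
    rw [tsum_eq_single (hsepf ω).toFinset]
    · by_cases hb : o ∈ sep G o n ω ∧ b.1 ∈ sep G o n ω ∧ b.2 ∉ sep G o n ω ∧ G.Adj b.1 b.2
          ∧ b.1 ∈ cluster G ω o
      · rw [if_pos hb]
        exact Set.indicator_le_self' (fun _ _ => bot_le) ω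
      · rw [if_neg hb, Set.indicator_of_notMem]
        simp only [hT]
        intro hmem
        split_ifs at hmem with hc
        · apply hb
          simp only [Set.Finite.coe_toFinset, Set.Finite.mem_toFinset] at hc hmem
          refine ⟨hc.1, hc.2.1, hc.2.2.1, hc.2.2.2, ?_⟩
          have := hmem.1
          simp only [Set.mem_ofPred_eq] at this
          rw [cluster_inn_sep hconn hc.1] at this
          exact this
        · exact hmem
    · intro K hK
      rw [Set.indicator_of_notMem]
      simp only [hT]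
      intro hmem
      split_ifs at hmem with hc
      · apply hK
        have : sep G o n ω = K := hmem.2
        ext v
        simp [this]
      · exact hmem
  calc μ {ω | ¬ Reach G n ω o} ≤ ∑' K, μ (A K) := h1
    _ ≤ ∑' K, ENNReal.ofReal (p : ℝ) * ∑' b, μ (T K b) := ENNReal.tsum_le_tsum h2
    _ = ENNReal.ofReal (p : ℝ) * ∑' K, ∑' b, μ (T K b) := ENNReal.tsum_mul_left
    _ ≤ _ := by gcongr

/-- the indicator of `Reach` as a real function -/
noncomputable def rInd (G : SimpleGraph V) (o : V) (n : ℕ) : (Sym2 V → Bool) → ℝ :=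
  fun ω => if Reach G n ω o then 1 else 0

lemma integral_rInd : ∫ ω, rInd G o n ω ∂(prodBern (Sym2 V) p)
    = (perc V p {ω | Reach G n ω o}).toReal := by
  have h : rInd G o n = ({ω : Sym2 V → Bool | Reach G n ω o}).indicator 1 := by
    funext ω
    unfold rInd
    by_cases h : Reach G n ω o
    · rw [if_pos h, Set.indicator_of_mem (by exact h), Pi.one_apply]
    · rw [if_neg h, Set.indicator_of_notMem (by exact h)]
  rw [h, integral_indicator_one (measurableSet_reach' n o)]
  rfl

lemma depOn_rInd (hconn : G.Connected) (hn : n ≠ 0) {Λ : Finset (Sym2 V)}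
    (hΛ : touch G {v | G.dist o v < n} ⊆ Λ) : DepOn Λ (rInd G o n) := by
  intro ω ω' h
  unfold rInd
  have h1 : Reach G n ω o ↔ Reach G n ω' o :=
    ⟨reach_congr hconn hn (fun e he => h e (hΛ he)),
      reach_congr hconn hn (fun e he => (h e (hΛ he)).symm)⟩
  simp only [h1]

/-- the influence of `e` -/
lemma integral_diff (e : Sym2 V) :
    ∫ ω, (rInd G o n (Function.update ω e true) - rInd G o n (Function.update ω e false))
        ∂(prodBern (Sym2 V) p)
      = (perc V p {ω | Reach G n (on ω e) o ∧ ¬ Reach G n (off ω e) o}).toReal := by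
  have h : (fun ω => rInd G o n (Function.update ω e true) - rInd G o n (Function.update ω e false))
      = ({ω : Sym2 V → Bool | Reach G n (on ω e) o ∧ ¬ Reach G n (off ω e) o}).indicator 1 := by
    funext ω
    have hmono : Reach G n (off ω e) o → Reach G n (on ω e) o := reach_mono (off_le_on e)
    show rInd G o n (on ω e) - rInd G o n (off ω e) = _
    unfold rInd
    by_cases h1 : Reach G n (on ω e) o
    · by_cases h2 : Reach G n (off ω e) o
      · rw [if_pos h1, if_pos h2, Set.indicator_of_notMem (fun h => h.2 h2)]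
        norm_num
      · rw [if_pos h1, if_neg h2, Set.indicator_of_mem (show ω ∈ {ω : Sym2 V → Bool | Reach G n (on ω e) o ∧
          ¬ Reach G n (off ω e) o} from ⟨h1, h2⟩), Pi.one_apply]
        norm_num
    · rw [if_neg h1, if_neg (fun h => h1 (hmono h)), Set.indicator_of_notMem (fun h => h1 h.1)]
      norm_num
  rw [h, integral_indicator_one (measurableSet_pivotal n o e)]
  rfl

lemma cpiv_prob (e : Sym2 V) :
    perc V p (cpiv G o n e) = ENNReal.ofReal (1 - (p : ℝ))
      * perc V p {ω | Reach G n (on ω e) o ∧ ¬ Reach G n (off ω e) o} := by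
  have h1 : perc V p ({ω : Sym2 V → Bool | ω e = false}
      ∩ {ω | Reach G n (on ω e) o ∧ ¬ Reach G n (off ω e) o})
      = perc V p {ω : Sym2 V → Bool | ω e = false}
        * perc V p {ω | Reach G n (on ω e) o ∧ ¬ Reach G n (off ω e) o} := by
    refine indep_set p {e} (measurableSet_eq_fun (measurable_pi_apply _) measurable_const)
      (measurableSet_pivotal n o e) ?_ ?_
    · intro ω ω' h
      show ω e = false ↔ ω' e = false
      rw [h e (Finset.mem_singleton_self e)]
    · intro f hf ω b
      rw [Finset.mem_singleton] at hf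
      subst hf
      simp only [Set.mem_ofPred_eq, on, off, Function.update_idem]
  have h2 : perc V p {ω : Sym2 V → Bool | ω e = false} = ENNReal.ofReal (1 - (p : ℝ)) := by
    have h3 : {ω : Sym2 V → Bool | ω e = false} = {ω : Sym2 V → Bool | ω e = true}ᶜ := by
      ext ω
      simp
    have hm : MeasurableSet {ω : Sym2 V → Bool | ω e = true} :=
      measurableSet_eq_fun (measurable_pi_apply _) measurable_const
    rw [h3, prob_compl_eq_one_sub hm]
    have : perc V p {ω : Sym2 V → Bool | ω e = true} = ENNReal.ofReal (p : ℝ) := prob_open p e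
    rw [this, ENNReal.ofReal_sub _ p.2.1, ENNReal.ofReal_one]
  rw [← h2, ← h1]
  rfl

/-- `θ_n' ≥ 4 (1 - θ_n)` -/
theorem deriv_theta (hconn : G.Connected) (hfin : ∀ x, (G.neighborSet x).Finite) (hn : n ≠ 0)
    {x : ℝ} (hx0 : 0 < x) (hx1 : x < 1) :
    ∃ D : ℝ, HasDerivAt (fun y => (perc V (prm y) {ω | Reach G n ω o}).toReal) D x ∧
      ((∀ S : Set V, S.Finite → o ∈ S → 1 ≤ phi G (prm x) o S) →
        4 * (1 - (perc V (prm x) {ω | Reach G n ω o}).toReal) ≤ D) := by
  have hballf : {v | G.dist o v < n}.Finite :=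
    (ball_finite hconn hfin o n).subset (fun v hv => le_of_lt (show G.dist o v < n from hv))
  set Λ : Finset (Sym2 V) := (touch_finite G hfin hballf).toFinset with hΛdef
  have hΛ : touch G {v | G.dist o v < n} ⊆ Λ := by rw [hΛdef]; simp
  have hr := russo Λ (rInd G o n) (depOn_rInd hconn hn hΛ) x hx0 hx1
  simp only [integral_rInd, integral_diff] at hr
  refine ⟨_, hr, fun hφ => ?_⟩
  have hk := key_b (prm x) hconn hfin hn hφ Λ hΛ
  set θ := perc V (prm x) {ω | Reach G n ω o} with hθ
  have hc : perc V (prm x) {ω | ¬ Reach G n ω o} = 1 - θ := by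
    have : {ω : Sym2 V → Bool | ¬ Reach G n ω o} = {ω | Reach G n ω o}ᶜ := rfl
    rw [this, prob_compl_eq_one_sub (measurableSet_reach' n o)]
  have hθ1 : θ ≤ 1 := prob_le_one
  rw [hc] at hk
  simp only [cpiv_prob, prm_coe hx0.le hx1.le] at hk
  rw [← Finset.mul_sum] at hk
  set Sg : ℝ≥0∞ := ∑ e ∈ Λ, perc V (prm x) {ω | Reach G n (on ω e) o ∧ ¬ Reach G n (off ω e) o}
    with hS
  have hSt : Sg ≠ ⊤ := by
    rw [hS]
    exact ENNReal.sum_ne_top.2 (fun e _ => measure_ne_top _ _)
  have hsum : ∑ e ∈ Λ, (perc V (prm x) {ω | Reach G n (on ω e) o ∧ ¬ Reach G n (off ω e) o}).toReal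
      = Sg.toReal := by
    rw [hS, ENNReal.toReal_sum (fun e _ => measure_ne_top _ _)]
  rw [hsum]
  have h3 : 1 - θ.toReal ≤ x * ((1 - x) * Sg.toReal) := by
    have := ENNReal.toReal_mono ?_ hk
    · rw [ENNReal.toReal_sub_of_le hθ1 ENNReal.one_ne_top, ENNReal.toReal_one, ENNReal.toReal_mul,
        ENNReal.toReal_mul, ENNReal.toReal_ofReal hx0.le, ENNReal.toReal_ofReal (by linarith)] at this
      exact this
    · exact ENNReal.mul_ne_top ENNReal.ofReal_ne_top (ENNReal.mul_ne_top ENNReal.ofReal_ne_top hSt)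
  have h4 : 0 ≤ Sg.toReal := ENNReal.toReal_nonneg
  nlinarith [mul_nonneg (sq_nonneg (2 * x - 1)) h4]

/-- the integrated form -/
theorem theta_ge (hconn : G.Connected) (hfin : ∀ x, (G.neighborSet x).Finite) (hn : n ≠ 0)
    {a b : ℝ} (ha : 0 < a) (hab : a ≤ b) (hb : b < 1)
    (hφ : ∀ x, a < x → x < b → ∀ S : Set V, S.Finite → o ∈ S → 1 ≤ phi G (prm x) o S) :
    1 - Real.exp (-(4 * (b - a))) ≤ (perc V (prm b) {ω | Reach G n ω o}).toReal := by
  set g : ℝ → ℝ := fun y => (perc V (prm y) {ω | Reach G n ω o}).toReal with hg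
  choose! D hD hD' using fun (x : ℝ) (hx : 0 < x ∧ x < 1) =>
    deriv_theta (G := G) (o := o) (n := n) hconn hfin hn hx.1 hx.2
  set f : ℝ → ℝ := fun y => (1 - g y) * Real.exp (4 * y) with hf
  have hderiv : ∀ x ∈ Set.Icc a b, HasDerivAt f
      ((0 - D x) * Real.exp (4 * x) + (1 - g x) * (Real.exp (4 * x) * (4 * 1))) x := by
    intro x hx
    have hx' : 0 < x ∧ x < 1 := ⟨lt_of_lt_of_le ha hx.1, lt_of_le_of_lt hx.2 hb⟩
    have h1 := hD x hx'
    have h2 : HasDerivAt (fun y : ℝ => Real.exp (4 * y)) (Real.exp (4 * x) * (4 * 1)) x :=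
      ((hasDerivAt_id x).const_mul 4).exp
    exact ((hasDerivAt_const x (1 : ℝ)).sub h1).mul h2
  have hanti : AntitoneOn f (Set.Icc a b) := by
    apply antitoneOn_of_deriv_nonpos (convex_Icc a b)
    · intro x hx
      exact (hderiv x hx).continuousAt.continuousWithinAt
    · intro x hx
      rw [interior_Icc] at hx
      exact (hderiv x ⟨hx.1.le, hx.2.le⟩).differentiableAt.differentiableWithinAt
    · intro x hx
      rw [interior_Icc] at hx
      rw [(hderiv x ⟨hx.1.le, hx.2.le⟩).deriv]
      have hx' : 0 < x ∧ x < 1 := ⟨lt_trans ha hx.1, lt_trans hx.2 hb⟩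
      have h1 := hD' x hx' (hφ x hx.1 hx.2)
      have h2 := Real.exp_pos (4 * x)
      have h3 : (0 - D x) * Real.exp (4 * x) + (1 - g x) * (Real.exp (4 * x) * (4 * 1))
          = (4 * (1 - g x) - D x) * Real.exp (4 * x) := by ring
      rw [h3]
      apply mul_nonpos_of_nonpos_of_nonneg _ h2.le
      have h4 : 4 * (1 - g x) ≤ D x := h1
      linarith
  have key := hanti (Set.left_mem_Icc.2 hab) (Set.right_mem_Icc.2 hab) hab
  simp only [hf] at key
  have h1 : 0 ≤ g a := ENNReal.toReal_nonneg
  have h2 : (1 - g a) * Real.exp (4 * a) ≤ Real.exp (4 * a) := by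
    have := Real.exp_pos (4 * a)
    nlinarith
  have h3 : (1 - g b) * Real.exp (4 * b) ≤ Real.exp (4 * a) := key.trans h2
  have h4 : Real.exp (-(4 * (b - a))) * Real.exp (4 * b) = Real.exp (4 * a) := by
    rw [← Real.exp_add]; congr 1; ring
  have h5 : (1 - g b) * Real.exp (4 * b) ≤ Real.exp (-(4 * (b - a))) * Real.exp (4 * b) := by
    rw [h4]; exact h3
  have h6 := le_of_mul_le_mul_right h5 (Real.exp_pos (4 * b))
  linarith

end prob

section final
variable {Γ : Type*} [Group Γ] [Countable Γ] {G : SimpleGraph Γ}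

/-- if the cluster meets every sphere then it is infinite -/
lemma infinite_of_reach {ω : Sym2 Γ → Bool} (h : ∀ n, Reach G n ω 1) :
    (cluster G ω 1).Infinite := by
  intro hfin
  obtain ⟨N, hN⟩ := (hfin.image (fun z => G.dist 1 z)).bddAbove
  obtain ⟨z, hz, hzn⟩ := h (N + 1)
  have := hN ⟨z, hz, rfl⟩
  simp only at this
  omega

/-- (b) in the form used by the assembly -/
theorem thetaN_deriv (hG : CayleyLike G) {x : ℝ} (h0 : 0 < x) (h1 : x < 1) (n : ℕ) (hn : n ≠ 0) :
    ∃ D : ℝ, HasDerivAt (fun y => (thetaN G (prm y) n).toReal) D x ∧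
      ((∀ S : Set Γ, S.Finite → (1 : Γ) ∈ S → 1 ≤ phi G (prm x) 1 S) →
        4 * (1 - (thetaN G (prm x) n).toReal) ≤ D) :=
  deriv_theta hG.conn hG.fin hn h0 h1

/-- the mean-field lower bound above criticality -/
theorem theta_infinite_ge (hG : CayleyLike G) (p : unitInterval) (hp : IsCritical G p)
    (hp0 : (p : ℝ) ≠ 0) (q : unitInterval) (hpq : p ≤ q) (hq : (q : ℝ) ≠ 1) :
    1 - Real.exp (-(4 * ((q : ℝ) - p)))
      ≤ (perc Γ q {ω | (cluster G ω 1).Infinite}).toReal := by
  have hp0' : (0 : ℝ) < p := lt_of_le_of_ne p.2.1 (Ne.symm hp0)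
  have hq1 : (q : ℝ) < 1 := lt_of_le_of_ne q.2.2 hq
  have hpr : prm (q : ℝ) = q := Set.projIcc_val zero_le_one q
  have hn : ∀ n : ℕ, n ≠ 0 → 1 - Real.exp (-(4 * ((q : ℝ) - p)))
      ≤ (perc Γ q {ω | Reach G n ω 1}).toReal := by
    intro n hn
    have := theta_ge (G := G) (o := (1 : Γ)) hG.conn hG.fin hn hp0' (b := (q : ℝ))
      (by exact_mod_cast hpq) hq1 ?_
    · rwa [hpr] at this
    · intro x hx1 hx2 S hS h1
      have hx0 : 0 < x := lt_trans hp0' hx1
      refine one_le_phi hG (prm x) (hp.2 _ ?_) hS h1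
      rw [← Subtype.coe_lt_coe]
      show (p : ℝ) < (prm x : unitInterval)
      rw [prm_coe hx0.le (hx2.trans hq1).le]
      exact hx1
  have hset : {ω : Sym2 Γ → Bool | (cluster G ω 1).Infinite}
      = ⋂ n : ℕ, {ω : Sym2 Γ → Bool | Reach G n ω 1} := by
    ext ω
    simp only [Set.mem_ofPred_eq, Set.mem_iInter]
    exact ⟨fun h n => exists_dist_eq_of_infinite hG.conn hG.fin h n, infinite_of_reach⟩
  have hanti : Antitone (fun n : ℕ => {ω : Sym2 Γ → Bool | Reach G n ω 1}) := by
    apply antitone_nat_of_succ_le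
    intro n ω hω
    by_contra hc
    have hc' : ¬ Reach G n ω 1 := hc
    rcases Nat.eq_zero_or_pos n with h0 | h0
    · subst h0
      exact hc' ⟨1, self_mem_cluster, SimpleGraph.dist_self⟩
    have hsep := (mem_sep_self (G := G) (ω := ω) (o := (1 : Γ)) h0.ne').2 hc'
    obtain ⟨z, hz, hzn⟩ := (show Reach G (n + 1) ω 1 from hω)
    have := (sep_cluster hG.conn hsep hz).1
    omega
  rw [hset]
  have hlim := tendsto_measure_iInter_atTop (μ := perc Γ q)
    (fun n => (measurableSet_reach' (G := G) n (1 : Γ)).nullMeasurableSet) hanti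
    ⟨0, measure_ne_top _ _⟩
  have hlim' := (ENNReal.tendsto_toReal (measure_ne_top (perc Γ q) _)).comp hlim
  refine ge_of_tendsto hlim' ?_
  filter_upwards [eventually_ge_atTop 1] with n hn1
  exact hn n (by omega)

end final

end Pool.Agent.H91.IIC
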