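import Mathlib
import Pool.Agent.H97.IIC.Bridge
import Pool.Agent.H91.IIC.Theta
import Pool.Agent.H17.IIC.Indep

/-! Incipient infinite clusters exist as soon as there is no infinite open cluster. -/

open MeasureTheory Set Filter Topology
open scoped ENNReal Classical BoundedContinuousFunction

set_option linter.unusedSectionVars false

namespace Pool.Agent.H91.IIC

open Pool.Agent.H17.IIC

section gen
variable {ι : Type*} [DecidableEq ι] (p : unitInterval)

lemma prob_all_open (F : Finset ι) :
    prodBern ι p {ω | ∀ e ∈ F, ω e = true} = ENNReal.ofReal (p : ℝ) ^ F.card := by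
  have hm : ∀ F : Finset ι, MeasurableSet {ω : ι → Bool | ∀ e ∈ F, ω e = true} := by
    intro F
    have : {ω : ι → Bool | ∀ e ∈ F, ω e = true} = ⋂ e ∈ F, {ω : ι → Bool | ω e = true} := by
      ext ω; simp
    rw [this]
    exact F.measurableSet_biInter (fun e _ =>
      measurableSet_eq_fun (measurable_pi_apply _) measurable_const)
  induction F using Finset.induction_on with
  | empty => simp
  | @insert e F he ih =>
    have h1 : {ω : ι → Bool | ∀ f ∈ insert e F, ω f = true}
        = {ω : ι → Bool | ω e = true} ∩ {ω : ι → Bool | ∀ f ∈ F, ω f = true} := by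
      ext ω
      simp
    have h2 := indep_set p {e} (A := {ω : ι → Bool | ω e = true})
      (B := {ω : ι → Bool | ∀ f ∈ F, ω f = true})
      (measurableSet_eq_fun (measurable_pi_apply _) measurable_const) (hm F) ?_ ?_
    · rw [h1, h2, prob_open, ih, Finset.card_insert_of_notMem he, pow_succ, mul_comm]
    · intro ω ω' h
      show ω e = true ↔ ω' e = true
      rw [h e (Finset.mem_singleton_self e)]
    · intro f hf ω b
      rw [Finset.mem_singleton] at hf
      subst hf
      simp only [Set.mem_ofPred_eq]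
      constructor
      · intro h g hg
        have := h g hg
        rwa [Function.update_of_ne (fun hh => he (by rw [← hh]; exact hg))] at this
      · intro h g hg
        rw [Function.update_of_ne (fun hh => he (by rw [← hh]; exact hg))]
        exact h g hg

end gen

section walk
variable {V : Type*} {G : SimpleGraph V} {ω : Sym2 V → Bool}

lemma mem_cluster_of_walk {x y : V} (w : G.Walk x y) (h : ∀ e ∈ w.edges, ω e = true) :
    y ∈ cluster G ω x := by
  induction w with
  | nil => exact self_mem_cluster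
  | @cons a b c hab w ih =>
    have h1 : b ∈ cluster G ω a := cluster_step self_mem_cluster hab (h _ (by simp))
    have h2 : c ∈ cluster G ω b := ih (fun e he => h e (by simp [he]))
    rw [← cluster_eq_of_mem h1]
    exact h2

end walk

variable {Γ : Type*} [Group Γ] [Countable Γ] {G : SimpleGraph Γ} (p : unitInterval)

lemma aN_ne_zero [Infinite Γ] (hG : CayleyLike G) (hp0 : (p : ℝ) ≠ 0)
    (hth : ThetaZero G p) (n : ℕ) : aN G p n ≠ 0 := by
  have hth' : perc Γ p {ω | (cluster G ω 1).Infinite} = 0 := hth
  rw [← aN_eq p hth' n]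
  obtain ⟨z, hz⟩ := H97.Bridge.exists_dist_eq hG.conn hG.fin (1 : Γ) n
  obtain ⟨w⟩ := hG.conn.preconnected (1 : Γ) z
  have hsub : {ω : Sym2 Γ → Bool | ∀ e ∈ w.edges.toFinset, ω e = true}
      ⊆ {ω | ∃ z ∈ cluster G ω 1, G.dist 1 z = n} := by
    intro ω hω
    exact ⟨z, mem_cluster_of_walk w (fun e he => hω e (by simpa using he)), hz⟩
  have hpos : perc Γ p {ω : Sym2 Γ → Bool | ∀ e ∈ w.edges.toFinset, ω e = true} ≠ 0 := by
    have : perc Γ p {ω : Sym2 Γ → Bool | ∀ e ∈ w.edges.toFinset, ω e = true}
        = ENNReal.ofReal (p : ℝ) ^ w.edges.toFinset.card := prob_all_open p _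
    rw [this]
    apply pow_ne_zero
    have : 0 < (p : ℝ) := lt_of_le_of_ne p.2.1 (Ne.symm hp0)
    simpa using this
  exact fun h => hpos (measure_mono_null hsub h)

lemma isProb_law [Infinite Γ] (hG : CayleyLike G) (hp0 : (p : ℝ) ≠ 0)
    (hth : ThetaZero G p) (n : ℕ) : IsProbabilityMeasure (rerootedLaw G p n) := by
  refine ⟨?_⟩
  rw [law_apply p hG.inv hG.conn hth n MeasurableSet.univ]
  have : ∫⁻ ω, {ω | reroot G 1 ω ∈ (Set.univ : Set (H17.IIC.Sub Γ))}.indicator
          (fun ω => hfun G n (cl G ω 1)) ω ∂(perc Γ p) = aN G p n := by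
    simp only [Set.mem_univ, Set.ofPred_true, Set.indicator_univ]
    exact mean_h p hG.inv hG.conn n 1
  rw [this]
  apply ENNReal.inv_mul_cancel (aN_ne_zero p hG hp0 hth n)
  exact (aN_eq p hth n) ▸ measure_ne_top _ _

/-- If `p ≠ 0` and there is no infinite open cluster at `p`, then there is an incipient infinite
cluster (by compactness). -/
theorem exists_isIIC [Infinite Γ] (hG : CayleyLike G) (hp0 : (p : ℝ) ≠ 0) (hth : ThetaZero G p) :
    ∃ Q : Measure (H17.IIC.Sub Γ), IsIIC G p Q := by
  have hprob := isProb_law p hG hp0 hth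
  let μ : ℕ → ProbabilityMeasure (H17.IIC.Sub Γ) := fun n => ⟨rerootedLaw G p n, hprob n⟩
  obtain ⟨Q, φ, hφ, hlim⟩ := CompactSpace.tendsto_subseq μ
  refine ⟨Q, inferInstance, φ, hφ, fun f => ?_⟩
  exact (ProbabilityMeasure.tendsto_iff_forall_integral_tendsto.1 hlim) f

end Pool.Agent.H91.IIC
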