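import Mathlib
import Pool.Agent.H91.IIC.Russo

/-! Independence of functions of disjoint sets of coordinates (one of them finite). -/

open MeasureTheory Set Filter Topology
open scoped ENNReal

set_option linter.unusedSectionVars false

namespace Pool.Agent.H91.IIC

open Pool.Agent.H17.IIC

variable {ι : Type*} [DecidableEq ι]

/-- real version: `φ` depends only on the finite set `F`, `H` does not depend on `F`. -/
theorem integral_mul_indep (p : unitInterval) (F : Finset ι) :
    ∀ (H φ : (ι → Bool) → ℝ), Measurable H → (∃ C, ∀ ω, ‖H ω‖ ≤ C) →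
    (∀ ω ω', (∀ e ∉ F, ω e = ω' e) → H ω = H ω') → DepOn F φ →
    ∫ ω, H ω * φ ω ∂(prodBern ι p) = (∫ ω, H ω ∂(prodBern ι p)) * ∫ ω, φ ω ∂(prodBern ι p) := by
  induction F using Finset.induction_on with
  | empty =>
    intro H φ hH hHC hHi hφ
    have h : ∀ ω, φ ω = φ (fun _ => false) := fun ω => hφ ω _ (fun e he => absurd he (by simp))
    have h1 : ∀ ω, H ω * φ ω = H ω * φ (fun _ => false) := fun ω => by rw [h ω]
    simp only [h1, integral_mul_const]
    congr 1
    rw [integral_congr_ae (Eventually.of_forall h)]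
    simp
  | @insert e F he ih =>
    intro H φ hH hHC hHi hφ
    obtain ⟨C, hC⟩ := hHC
    obtain ⟨C', hC'⟩ := hφ.bounded
    have hm : Measurable (fun ω => H ω * φ ω) := hH.mul hφ.measurable
    have hb : ∀ ω, ‖H ω * φ ω‖ ≤ C * C' := by
      intro ω
      rw [norm_mul]
      exact mul_le_mul (hC ω) (hC' ω) (norm_nonneg _) ((norm_nonneg _).trans (hC ω))
    rw [integral_resample p e hm hb]
    have hupd : ∀ b ω, H (Function.update ω e b) = H ω := by
      intro b ω
      apply hHi
      intro f hf
      rw [Function.update_of_ne]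
      intro h
      exact hf (by rw [h]; exact Finset.mem_insert_self _ _)
    simp only [hupd]
    have hHi' : ∀ ω ω', (∀ f ∉ F, ω f = ω' f) → H ω = H ω' := by
      intro ω ω' h
      apply hHi
      intro f hf
      exact h f (fun hf' => hf (Finset.mem_insert_of_mem hf'))
    rw [ih H _ hH ⟨C, hC⟩ hHi' (hφ.update true), ih H _ hH ⟨C, hC⟩ hHi' (hφ.update false),
      hφ.resample p e]
    ring

/-- measure version -/
theorem measure_inter_indep (p : unitInterval) (F : Finset ι) {A B : Set (ι → Bool)}
    (hA : MeasurableSet A) (hAi : ∀ ω ω', (∀ e ∉ F, ω e = ω' e) → (ω ∈ A ↔ ω' ∈ A))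
    (hBi : ∀ ω ω', (∀ e ∈ F, ω e = ω' e) → (ω ∈ B ↔ ω' ∈ B)) :
    (prodBern ι p).real (A ∩ B) = (prodBern ι p).real A * (prodBern ι p).real B := by
  classical
  have hd : DepOn F (B.indicator (1 : (ι → Bool) → ℝ)) := by
    intro ω ω' h
    simp only [Set.indicator_apply, Pi.one_apply, hBi ω ω' h]
  have hB : MeasurableSet B := by
    have h1 := hd.measurable (measurableSet_singleton (1 : ℝ))
    have : (B.indicator (1 : (ι → Bool) → ℝ)) ⁻¹' {1} = B := by
      ext ω
      simp [Set.indicator_apply]
    rwa [this] at h1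
  have h := integral_mul_indep p F (A.indicator 1) (B.indicator 1)
    (measurable_one.indicator hA)
    ⟨1, fun ω => by
      simp only [Set.indicator_apply, Pi.one_apply]
      split_ifs <;> simp⟩
    (fun ω ω' h => by simp only [Set.indicator_apply, Pi.one_apply, hAi ω ω' h]) hd
  have h1 : (fun ω => A.indicator (1 : (ι → Bool) → ℝ) ω * B.indicator 1 ω)
      = (A ∩ B).indicator 1 := by
    funext ω
    simp only [Set.indicator_apply, Set.mem_inter_iff, Pi.one_apply]
    by_cases ha : ω ∈ A <;> by_cases hb : ω ∈ B <;> simp [ha, hb]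
  rw [h1, integral_indicator_one (hA.inter hB), integral_indicator_one hA,
    integral_indicator_one hB] at h
  exact h

end Pool.Agent.H91.IIC
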